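import Mathlib
import Pool.Agent.Y762.GA.Stm

/-! # Project GA: a form of large slope by pigeonhole (helper182) -/

set_option autoImplicit false

open MeasureTheory Set Metric
open Pool.Agent.H639R3.G

namespace Pool.Agent.Y182.GA

open Pool.Agent.Y762.GA

/-- Dirichlet's theorem with additional conditions on the last coordinates -/
theorem dirichlet2 {d m : ℕ} (y : Fin (d + m) → ℝ) (M c h N : ℕ) (hM : 0 < M) (hc : 0 < c)
    (hN : N ≤ h * c) (hcard : M * h ^ m < N ^ (d + m)) :
    ∃ z : Fin (d + m) → ℤ, z ≠ 0 ∧ (∀ i, |z i| ≤ N) ∧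
      (∀ j : Fin m, |z (Fin.natAdd d j)| < c) ∧
      ∃ p : ℤ, |p + ∑ i, (z i : ℝ) * y i| < 1 / (M : ℝ) := by
  classical
  set s : (Fin (d + m) → Fin N) → ℝ := fun u => ∑ i, ((u i : ℕ) : ℝ) * y i with hs
  have hM0 : (0 : ℝ) < (M : ℝ) := by exact_mod_cast hM
  obtain ⟨u, -, v, -, huv, hf⟩ := Finset.exists_ne_map_eq_of_card_lt_of_maps_to
    (s := (Finset.univ : Finset (Fin (d + m) → Fin N)))
    (t := (Finset.Ico (0 : ℤ) M) ×ˢ Fintype.piFinset (fun _ : Fin m => Finset.range h))
    (by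
      rw [Finset.card_product, Fintype.card_piFinset, Finset.prod_const, Finset.card_univ,
        Fintype.card_fin, Finset.card_range, Int.card_Ico, Finset.card_univ, Fintype.card_fun,
        Fintype.card_fin, Fintype.card_fin, sub_zero, Int.toNat_natCast]
      exact hcard)
    (f := fun u => (⌊(M : ℝ) * Int.fract (s u)⌋,
      fun j : Fin m => ((u (Fin.natAdd d j) : ℕ)) / c))
    (by
      intro u _
      rw [Finset.mem_coe, Finset.mem_product]
      refine ⟨?_, ?_⟩
      · rw [Finset.mem_Ico]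
        constructor
        · apply Int.floor_nonneg.2
          have := Int.fract_nonneg (s u)
          positivity
        · rw [Int.floor_lt]
          push_cast
          have := Int.fract_lt_one (s u)
          nlinarith
      · rw [Fintype.mem_piFinset]
        intro j
        rw [Finset.mem_range]
        refine Nat.div_lt_of_lt_mul ?_
        have := (u (Fin.natAdd d j)).2
        calc ((u (Fin.natAdd d j) : Fin N) : ℕ) < N := this
          _ ≤ h * c := hN
          _ = c * h := Nat.mul_comm _ _)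
  have hf1 : ⌊(M : ℝ) * Int.fract (s u)⌋ = ⌊(M : ℝ) * Int.fract (s v)⌋ := (Prod.ext_iff.1 hf).1
  have hf2 : ∀ j : Fin m, ((u (Fin.natAdd d j) : ℕ)) / c = ((v (Fin.natAdd d j) : ℕ)) / c :=
    fun j => congrFun (Prod.ext_iff.1 hf).2 j
  have h1 := Int.abs_sub_lt_one_of_floor_eq_floor hf1
  refine ⟨fun i => ((u i : ℕ) : ℤ) - ((v i : ℕ) : ℤ), ?_, ?_, ?_, ⌊s v⌋ - ⌊s u⌋, ?_⟩
  · intro h0
    apply huv
    ext i
    have := congrFun h0 i
    simp only [Pi.zero_apply] at this
    omega
  · intro i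
    have h2 := (u i).2
    have h3 := (v i).2
    show |((u i : ℕ) : ℤ) - ((v i : ℕ) : ℤ)| ≤ N
    rw [abs_le]
    constructor <;> omega
  · intro j
    show |((u (Fin.natAdd d j) : ℕ) : ℤ) - ((v (Fin.natAdd d j) : ℕ) : ℤ)| < c
    have e1 := Nat.div_add_mod (u (Fin.natAdd d j) : ℕ) c
    have e2 := Nat.div_add_mod (v (Fin.natAdd d j) : ℕ) c
    have e3 := Nat.mod_lt (u (Fin.natAdd d j) : ℕ) hc
    have e4 := Nat.mod_lt (v (Fin.natAdd d j) : ℕ) hc
    rw [hf2 j] at e1
    generalize c * (((v (Fin.natAdd d j) : Fin N) : ℕ) / c) = w at e1 e2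
    rw [abs_lt]
    constructor <;> omega
  · have h2 : ∑ i, (((((u i : ℕ) : ℤ) - ((v i : ℕ) : ℤ) : ℤ)) : ℝ) * y i = s u - s v := by
      rw [hs]
      simp only
      rw [← Finset.sum_sub_distrib]
      apply Finset.sum_congr rfl
      intro i _
      push_cast
      ring
    rw [h2]
    push_cast
    have h3 : (⌊s v⌋ : ℝ) - ⌊s u⌋ + (s u - s v) = Int.fract (s u) - Int.fract (s v) := by
      rw [Int.fract, Int.fract]; ring
    rw [h3, lt_div_iff₀ hM0]
    rw [← mul_sub, abs_mul, abs_of_pos hM0] at h1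
    linarith

theorem t_PIG : S_PIG := by
  intro d m hd A k
  obtain ⟨l0, hl0⟩ := pow_unbounded_of_one_lt (CA A * 2 ^ (k + 1)) (one_lt_two : (1 : ℝ) < 2)
  set l : ℕ := max l0 k with hl
  have hlk : k ≤ l := le_max_right _ _
  have hCl : CA A * 2 ^ (k + 1) ≤ 2 ^ l :=
    hl0.le.trans (pow_le_pow_right₀ one_le_two (le_max_left _ _))
  refine ⟨k + l * m + 1, l, fun t ht x hx => ?_⟩
  set r : ℕ := k + l * m + 1 with hr
  obtain ⟨e, he⟩ : ∃ e, t = l + e := ⟨t - l, by omega⟩
  obtain ⟨z, hz0, hzN, hzc, p, hp⟩ := dirichlet2 (point A x) (2 ^ (t * (d + m) + k)) (2 ^ e)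
    (2 ^ (r + l)) (2 ^ (t + r)) (by positivity) (by positivity)
    (by
      rw [← pow_add]
      exact Nat.pow_le_pow_right (by norm_num) (by omega))
    (by
      rw [← pow_mul, ← pow_add, ← pow_mul]
      refine Nat.pow_lt_pow_right (by norm_num) ?_
      have h1 : (t + r) * (d + m) = t * (d + m) + r * d + r * m := by ring
      have h2 : (r + l) * m = r * m + l * m := by ring
      have h3 : r ≤ r * d := Nat.le_mul_of_pos_right _ hd
      rw [h1, h2]
      omega)
  have hzN' : ∀ i, |z i| ≤ 2 ^ (t + r) := by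
    intro i
    have := hzN i
    push_cast at this
    exact this
  have hp2 : |(p : ℝ) + ∑ i, (z i : ℝ) * point A x i| < 1 / 2 ^ (t * (d + m) + k) := by
    have := hp
    push_cast at this
    exact this
  have hbig : ∃ i, (2 : ℤ) ^ t < |z i| * 2 ^ k := by
    by_contra hcon
    push Not at hcon
    exact hx ⟨z, p, hz0, hcon, hp2⟩
  obtain ⟨i, hi⟩ := hbig
  have hdm : ∀ j : Fin m, |z (Fin.natAdd d j)| * 2 ^ k ≤ 2 ^ t := by
    intro j
    have h1 : |z (Fin.natAdd d j)| ≤ 2 ^ e := by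
      have := hzc j
      push_cast at this
      exact this.le
    calc |z (Fin.natAdd d j)| * 2 ^ k ≤ 2 ^ e * 2 ^ k := by gcongr
      _ = 2 ^ (e + k) := by rw [← pow_add]
      _ ≤ 2 ^ t := pow_le_pow_right₀ (by norm_num) (by omega)
  obtain ⟨i', rfl⟩ : ∃ i' : Fin d, i = Fin.castAdd m i' := by
    revert hi
    refine Fin.addCases (fun i' _ => ⟨i', rfl⟩) (fun j hj => ?_) i
    exact absurd hj (not_lt.2 (hdm j))
  refine ⟨z, p, hz0, hzN', ?_, ?_⟩
  · set q : Fin m → ℤ := fun j => z (Fin.natAdd d j) with hq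
    have hev : |ev A q i'.succ| ≤ CA A * 2 ^ e := by
      have h1 := norm_bvec_le A (q' := (0 : Fin d → ℤ)) (q := q) (N := (2 : ℝ) ^ e)
        (by positivity) (fun i => by simp) (fun j => by
          have := hzc j
          have h2 : |q j| ≤ 2 ^ e := by
            push_cast at this
            exact this.le
          have h3 : ((|q j| : ℤ) : ℝ) ≤ ((2 ^ e : ℤ) : ℝ) := by exact_mod_cast h2
          push_cast at h3
          exact h3)
      have h2 := norm_le_pi_norm (bvec A (0 : Fin d → ℤ) q) i'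
      have h3 : bvec A (0 : Fin d → ℤ) q i' = ev A q i'.succ := by
        unfold bvec
        simp
      rw [h3, Real.norm_eq_abs] at h2
      exact h2.trans h1
    have hev2 : CA A * 2 ^ e ≤ 1 / 2 ^ (k + 1) * 2 ^ t := by
      rw [div_mul_eq_mul_div, le_div_iff₀ (by positivity), one_mul]
      calc CA A * 2 ^ e * 2 ^ (k + 1) = CA A * 2 ^ (k + 1) * 2 ^ e := by ring
        _ ≤ 2 ^ l * 2 ^ e := by gcongr
        _ = 2 ^ t := by rw [he, pow_add]
    have hzr : 1 / 2 ^ k * 2 ^ t < |((z (Fin.castAdd m i') : ℤ) : ℝ)| := by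
      rw [div_mul_eq_mul_div, div_lt_iff₀ (by positivity), one_mul]
      have h3 : (((2 : ℤ) ^ t : ℤ) : ℝ) < ((|z (Fin.castAdd m i')| * 2 ^ k : ℤ) : ℝ) := by
        exact_mod_cast hi
      push_cast at h3
      exact h3
    have h4 := norm_le_pi_norm (bvec A (fun i => z (Fin.castAdd m i)) q) i'
    rw [Real.norm_eq_abs] at h4
    refine lt_of_lt_of_le ?_ h4
    have h5 : bvec A (fun i => z (Fin.castAdd m i)) q i' =
        (z (Fin.castAdd m i') : ℝ) + ev A q i'.succ := rfl
    rw [h5]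
    have h6 : |((z (Fin.castAdd m i') : ℤ) : ℝ)| ≤
        |(z (Fin.castAdd m i') : ℝ) + ev A q i'.succ| + |ev A q i'.succ| := by
      have := abs_sub ((z (Fin.castAdd m i') : ℝ) + ev A q i'.succ) (ev A q i'.succ)
      rwa [add_sub_cancel_right] at this
    have h7 : (1 : ℝ) / 2 ^ k * 2 ^ t = 1 / 2 ^ (k + 1) * 2 ^ t + 1 / 2 ^ (k + 1) * 2 ^ t := by
      rw [pow_succ]
      field_simp
      ring
    linarith
  · have e1 : aff (p + acoef A (fun j => z (Fin.natAdd d j)))
        (bvec A (fun i => z (Fin.castAdd m i)) (fun j => z (Fin.natAdd d j))) x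
        = p + aff (acoef A (fun j => z (Fin.natAdd d j)))
        (bvec A (fun i => z (Fin.castAdd m i)) (fun j => z (Fin.natAdd d j))) x := by
      unfold aff; ring
    rw [e1, ← sum_point]
    refine hp2.trans_le ?_
    refine one_div_le_one_div_of_le (by positivity) ?_
    exact pow_le_pow_right₀ one_le_two (by omega)

end Pool.Agent.Y182.GA
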